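import Pool.Agent.P8H33.QC.Stm2

/-!
# Project QC, package D3: spaces of rational `3 × 3` matrices whose determinant is a linear form times a sum of squares
-/

set_option autoImplicit false

namespace Pool.Agent.P8H37.QC

open Matrix

abbrev M3 : Type := Matrix (Fin 3) (Fin 3) ℚ

/-- the derivative of the determinant at `A` in the direction `B` -/
def pol (A B : M3) : ℚ :=
  B 0 0 * (A 1 1 * A 2 2 - A 1 2 * A 2 1) - B 0 1 * (A 1 0 * A 2 2 - A 1 2 * A 2 0) +
  B 0 2 * (A 1 0 * A 2 1 - A 1 1 * A 2 0) - B 1 0 * (A 0 1 * A 2 2 - A 0 2 * A 2 1) +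
  B 1 1 * (A 0 0 * A 2 2 - A 0 2 * A 2 0) - B 1 2 * (A 0 0 * A 2 1 - A 0 1 * A 2 0) +
  B 2 0 * (A 0 1 * A 1 2 - A 0 2 * A 1 1) - B 2 1 * (A 0 0 * A 1 2 - A 0 2 * A 1 0) +
  B 2 2 * (A 0 0 * A 1 1 - A 0 1 * A 1 0)

theorem det_add (A B : M3) (t : ℚ) :
    (A + t • B).det = A.det + t * pol A B + t ^ 2 * pol B A + t ^ 3 * B.det := by
  simp only [det_fin_three, pol, Matrix.add_apply, Matrix.smul_apply, smul_eq_mul]
  ring

theorem coeffs {a b c d : ℚ} (h : ∀ t : ℚ, a + t * b + t ^ 2 * c + t ^ 3 * d = 0) : b = 0 ∧ c = 0 := by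
  have h0 := h 0
  have h1 := h 1
  have h2 := h (-1)
  have h3 := h 2
  constructor <;> linarith

/-- an invertible matrix with given last column -/
theorem exists_col (v : Fin 3 → ℚ) (hv : v ≠ 0) : ∃ P : M3, P.det ≠ 0 ∧ ∀ i, P i 2 = v i := by
  have : v 0 ≠ 0 ∨ v 1 ≠ 0 ∨ v 2 ≠ 0 := by
    by_contra hcon
    push Not at hcon
    apply hv
    funext i
    fin_cases i
    · exact hcon.1
    · exact hcon.2.1
    · exact hcon.2.2
  rcases this with h | h | h
  · refine ⟨!![0, 0, v 0; 1, 0, v 1; 0, 1, v 2], ?_, ?_⟩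
    · simp [det_fin_three]
      exact h
    · intro i
      fin_cases i <;> simp
  · refine ⟨!![1, 0, v 0; 0, 0, v 1; 0, 1, v 2], ?_, ?_⟩
    · simp [det_fin_three]
      exact h
    · intro i
      fin_cases i <;> simp
  · refine ⟨!![1, 0, v 0; 0, 1, v 1; 0, 0, v 2], ?_, ?_⟩
    · simp [det_fin_three]
      exact h
    · intro i
      fin_cases i <;> simp

/-- a nonzero vector orthogonal to a given one -/
theorem exists_orth (u : Fin 3 → ℚ) : ∃ w : Fin 3 → ℚ, w ≠ 0 ∧ w 0 * u 0 + w 1 * u 1 + w 2 * u 2 = 0 := by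
  by_cases h : u 0 = 0
  · refine ⟨![1, 0, 0], ?_, ?_⟩
    · intro h1
      have := congrFun h1 0
      simp at this
    · simp [h]
  · refine ⟨![u 1, -u 0, 0], ?_, ?_⟩
    · intro h1
      have := congrFun h1 1
      simp at this
      exact h this
    · simp
      ring

section zero

/-- matrices of rank at most one -/
theorem minors {A : M3} (h : A.adjugate = 0) (a a' b b' : Fin 3) : A a b * A a' b' = A a b' * A a' b := by
  rw [adjugate_fin_three] at h
  have h00 := congrFun (congrFun h 0) 0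
  have h01 := congrFun (congrFun h 0) 1
  have h02 := congrFun (congrFun h 0) 2
  have h10 := congrFun (congrFun h 1) 0
  have h11 := congrFun (congrFun h 1) 1
  have h12 := congrFun (congrFun h 1) 2
  have h20 := congrFun (congrFun h 2) 0
  have h21 := congrFun (congrFun h 2) 1
  have h22 := congrFun (congrFun h 2) 2
  simp at h00 h01 h02 h10 h11 h12 h20 h21 h22
  fin_cases a <;> fin_cases a' <;> fin_cases b <;> fin_cases b' <;> simp <;> linarith

theorem singular_case {k : ℕ} (m : Fin k → M3) (h : ∀ X : Fin k → ℚ, (∑ i, X i • m i).det = 0) :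
    ∃ w v : Fin 3 → ℚ, w ≠ 0 ∧ v ≠ 0 ∧ ∀ i, w ⬝ᵥ ((m i) *ᵥ v) = 0 := by
  set N : (Fin k → ℚ) →ₗ[ℚ] M3 := Fintype.linearCombination ℚ m with hN
  have hNX : ∀ X, N X = ∑ i, X i • m i := fun X => Fintype.linearCombination_apply ℚ m X
  have hd : ∀ X, (N X).det = 0 := fun X => by rw [hNX]; exact h X
  have hm : ∀ i, N (Pi.single i 1) = m i := by
    intro i
    rw [hN, Fintype.linearCombination_apply_single, one_smul]
  have hpol : ∀ X Y, pol (N X) (N Y) = 0 := by
    intro X Y
    refine (coeffs (a := (N X).det) (b := pol (N X) (N Y)) (c := pol (N Y) (N X)) (d := (N Y).det) fun t => ?_).1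
    rw [← det_add, ← map_smul, ← map_add]
    exact hd _
  by_cases h1 : ∃ X, (N X).adjugate ≠ 0
  · obtain ⟨X, hX⟩ := h1
    set A := N X with hA
    have hadj : (A.adjugate).adjugate = 0 := by
      rw [adjugate_adjugate A (by simp), hd X]
      simp
    have hmin := minors hadj
    obtain ⟨i, j, hij⟩ : ∃ i j, A.adjugate i j ≠ 0 := by
      by_contra hcon
      push Not at hcon
      apply hX
      ext i j
      exact hcon i j
    refine ⟨fun b => A.adjugate i b, fun a => A.adjugate a j, ?_, ?_, ?_⟩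
    · intro h0
      exact hij (congrFun h0 j)
    · intro h0
      exact hij (congrFun h0 i)
    · intro l
      have h2 := hpol X (Pi.single l 1)
      rw [hm, ← hA] at h2
      have h3 : A.adjugate i j * pol A (m l) = 0 := by rw [h2, mul_zero]
      have e : pol A (m l) = ∑ a, ∑ b, A.adjugate a b * m l b a := by
        rw [adjugate_fin_three]
        simp [Fin.sum_univ_three, pol]
        ring
      have e2 : (fun b => A.adjugate i b) ⬝ᵥ ((m l) *ᵥ (fun a => A.adjugate a j)) =
          ∑ a, ∑ b, A.adjugate i b * m l b a * A.adjugate a j := by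
        simp only [dotProduct, mulVec, Finset.mul_sum]
        rw [Finset.sum_comm]
        refine Finset.sum_congr rfl fun a _ => Finset.sum_congr rfl fun b _ => ?_
        ring
      rw [e2]
      rw [e, Finset.mul_sum] at h3
      rw [← h3]
      refine Finset.sum_congr rfl fun a _ => ?_
      rw [Finset.mul_sum]
      refine Finset.sum_congr rfl fun b _ => ?_
      have := hmin i a j b
      linear_combination (-(m l b a)) * this
  · push Not at h1
    by_cases h2 : ∃ X, N X ≠ 0
    · obtain ⟨X, hX⟩ := h2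
      obtain ⟨a, b, hab⟩ : ∃ i j, N X i j ≠ 0 := by
        by_contra hcon
        push Not at hcon
        apply hX
        ext i j
        exact hcon i j
      obtain ⟨v, hv, hv'⟩ := exists_mulVec_eq_zero_iff.2 (hd X)
      obtain ⟨w, hw, hw'⟩ := exists_vecMul_eq_zero_iff.2 (hd X)
      refine ⟨w, v, hw, hv, ?_⟩
      intro l
      have hP : ∀ a' b', N X a b * m l a' b' + m l a b * N X a' b' = N X a b' * m l a' b + m l a b' * N X a' b := by
        intro a' b'
        have e1 := minors (h1 X) a a' b b'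
        have e2 := minors (h1 (Pi.single l 1)) a a' b b'
        have e3 := minors (h1 (X + Pi.single l 1)) a a' b b'
        rw [map_add, hm] at e3
        rw [hm] at e2
        simp only [Matrix.add_apply] at e3
        linarith
      have v1 := congrFun hv' a
      have v0 := congrFun hv' 0
      have w1 := congrFun hw' b
      simp only [mulVec, vecMul, dotProduct, Fin.sum_univ_three, Pi.zero_apply] at v1 v0 w1 ⊢
      have vv : ∀ i, N X i 0 * v 0 + N X i 1 * v 1 + N X i 2 * v 2 = 0 := by
        intro i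
        have := congrFun hv' i
        simp only [mulVec, dotProduct, Fin.sum_univ_three, Pi.zero_apply] at this
        exact this
      apply mul_left_cancel₀ hab
      rw [mul_zero]
      have p00 := hP 0 0
      have p01 := hP 0 1
      have p02 := hP 0 2
      have p10 := hP 1 0
      have p11 := hP 1 1
      have p12 := hP 1 2
      have p20 := hP 2 0
      have p21 := hP 2 1
      have p22 := hP 2 2
      have q0 := vv 0
      have q1 := vv 1
      have q2 := vv 2
      linear_combination w 0 * v 0 * p00 + w 0 * v 1 * p01 + w 0 * v 2 * p02 + w 1 * v 0 * p10 +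
        w 1 * v 1 * p11 + w 1 * v 2 * p12 + w 2 * v 0 * p20 + w 2 * v 1 * p21 + w 2 * v 2 * p22 +
        (w 0 * m l 0 b + w 1 * m l 1 b + w 2 * m l 2 b) * v1 +
        (m l a 0 * v 0 + m l a 1 * v 1 + m l a 2 * v 2) * w1 -
        m l a b * (w 0 * q0 + w 1 * q1 + w 2 * q2)
    · push Not at h2
      refine ⟨![1, 0, 0], ![1, 0, 0], ?_, ?_, ?_⟩
      · intro h0
        have := congrFun h0 0
        simp at this
      · intro h0
        have := congrFun h0 0
        simp at this
      · intro i
        rw [← hm i, h2]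
        simp

end zero

section main

/-- a positive definite sum of squares -/
theorem sumsq_ne {k : ℕ} {X : Fin k → ℚ} (h : X ≠ 0) : ∑ i, X i ^ 2 ≠ 0 := by
  intro h0
  apply h
  rw [Finset.sum_eq_zero_iff_of_nonneg fun i _ => sq_nonneg (X i)] at h0
  funext i
  exact pow_eq_zero_iff (two_ne_zero) |>.1 (h0 i (Finset.mem_univ i))

/-- totally isotropic spaces for the hyperbolic form have dimension at most two -/
theorem isotropic (p q r s : ℚ) (hD : p * s - q * r ≠ 0) (W : Submodule ℚ (Fin 4 → ℚ))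
    (hW : ∀ x ∈ W, p * x 1 * x 3 - q * x 1 * x 2 - r * x 0 * x 3 + s * x 0 * x 2 = 0) :
    Module.finrank ℚ W ≤ 2 := by
  set G : Matrix (Fin 4) (Fin 4) ℚ := !![0, 0, s, -r; 0, 0, -q, p; s, -q, 0, 0; -r, p, 0, 0] with hG
  have hdet : G.det ≠ 0 := by
    have e : G.det = (p * s - q * r) ^ 2 := by
      rw [hG, det_succ_row_zero]
      simp [Fin.sum_univ_succ, det_fin_three, submatrix_apply, Fin.succAbove]
      ring
    rw [e]
    exact pow_ne_zero _ hD
  have hB := LinearMap.BilinForm.nondegenerate_toBilin'_of_det_ne_zero' G hdet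
  have h1 := LinearMap.BilinForm.finrank_orthogonal hB W
  have h2 : W ≤ (Matrix.toBilin' G).orthogonal W := by
    intro x hx
    rw [LinearMap.BilinForm.mem_orthogonal_iff]
    intro y hy
    have a1 := hW x hx
    have a2 := hW y hy
    have a3 := hW (x + y) (W.add_mem hx hy)
    simp only [Pi.add_apply] at a3
    rw [Matrix.toBilin'_apply]
    simp only [Fin.sum_univ_four, hG]
    simp
    linarith
  have h3 := Submodule.finrank_mono h2
  rw [h1] at h3
  have h4 : Module.finrank ℚ (Fin 4 → ℚ) = 4 := by simp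
  omega

theorem core {k : ℕ} (hk : 5 ≤ k) (N : (Fin k → ℚ) →ₗ[ℚ] M3) (l : (Fin k → ℚ) →ₗ[ℚ] ℚ) (κ : ℚ) (hκ : κ ≠ 0)
    (hdet : ∀ X, (N X).det = κ * l X * ∑ i, X i ^ 2) (X' X0 : Fin k → ℚ) (hX' : l X' = 1) (hX0 : l X0 = 0)
    (hX0n : X0 ≠ 0) (z02 : N X0 0 2 = 0) (z12 : N X0 1 2 = 0) (z20 : N X0 2 0 = 0) (z21 : N X0 2 1 = 0)
    (z22 : N X0 2 2 = 0) :
    ∃ w v : Fin 3 → ℚ, w ≠ 0 ∧ v ≠ 0 ∧ ∀ X, w ⬝ᵥ (N X *ᵥ v) = 0 := by
  have F1 : ∀ X, l X = 0 → pol (N X) (N X') = κ * ∑ i, X i ^ 2 := by
    intro X hX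
    have h := (coeffs (a := 0) (b := pol (N X) (N X') - κ * ∑ i, X i ^ 2)
      (c := pol (N X') (N X) - 2 * κ * ∑ i, X i * X' i) (d := (N X').det - κ * ∑ i, X' i ^ 2) fun t => ?_).1
    · linarith
    · have h1 := hdet (X + t • X')
      have h2 := hdet X
      rw [hX, mul_zero, zero_mul] at h2
      rw [map_add, map_smul, det_add, map_add, map_smul, hX, hX', h2] at h1
      have h3 : ∑ i, (X + t • X') i ^ 2 = ∑ i, X i ^ 2 + 2 * t * ∑ i, X i * X' i + t ^ 2 * ∑ i, X' i ^ 2 := by
        rw [Finset.mul_sum, Finset.mul_sum, ← Finset.sum_add_distrib, ← Finset.sum_add_distrib]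
        refine Finset.sum_congr rfl fun i _ => ?_
        simp only [Pi.add_apply, Pi.smul_apply, smul_eq_mul]
        ring
      rw [h3] at h1
      simp only [smul_eq_mul] at h1
      linear_combination h1
  have F2 : ∀ X Y, l X = 0 → l Y = 0 → pol (N X) (N Y) = 0 := by
    intro X Y hX hY
    refine (coeffs (a := (N X).det) (b := pol (N X) (N Y)) (c := pol (N Y) (N X)) (d := (N Y).det) fun t => ?_).1
    rw [← det_add, ← map_smul, ← map_add, hdet, map_add, map_smul, hX, hY]
    simp
  set p := N X0 0 0 with hp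
  set q := N X0 0 1 with hq
  set r := N X0 1 0 with hr
  set s := N X0 1 1 with hs
  have hD : p * s - q * r ≠ 0 := by
    intro h0
    have h1 := F1 X0 hX0
    have h2 : pol (N X0) (N X') = (p * s - q * r) * N X' 2 2 := by
      simp only [pol, z02, z12, z20, z21, z22, ← hp, ← hq, ← hr, ← hs]
      ring
    rw [h2, h0, zero_mul] at h1
    exact mul_ne_zero hκ (sumsq_ne hX0n) h1.symm
  have K22 : ∀ X, l X = 0 → N X 2 2 = 0 := by
    intro X hX
    have h1 := F2 X0 X hX0 hX
    have h2 : pol (N X0) (N X) = (p * s - q * r) * N X 2 2 := by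
      simp only [pol, z02, z12, z20, z21, z22, ← hp, ← hq, ← hr, ← hs]
      ring
    rw [h2] at h1
    exact (mul_eq_zero.1 h1).resolve_left hD
  have R0 : ∀ X, l X = 0 →
      p * N X 1 2 * N X 2 1 - q * N X 1 2 * N X 2 0 - r * N X 0 2 * N X 2 1 + s * N X 0 2 * N X 2 0 = 0 := by
    intro X hX
    have h1 := F2 X X0 hX hX0
    simp only [pol, z02, z12, z20, z21, z22, K22 X hX, ← hp, ← hq, ← hr, ← hs] at h1
    linear_combination -h1
  -- a second element of the small space
  obtain ⟨X1, hX1, hX1n, y02, y12, y20, y21⟩ : ∃ X1, l X1 = 0 ∧ (∀ σ : ℚ, X1 ≠ σ • X0) ∧ N X1 0 2 = 0 ∧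
      N X1 1 2 = 0 ∧ N X1 2 0 = 0 ∧ N X1 2 1 = 0 := by
    let f : (Fin k → ℚ) →ₗ[ℚ] (Fin 4 → ℚ) :=
      { toFun := fun X => ![N X 0 2, N X 1 2, N X 2 0, N X 2 1]
        map_add' := by
          intro X Y
          funext i
          fin_cases i <;> simp [map_add]
        map_smul' := by
          intro t X
          funext i
          fin_cases i <;> simp [map_smul] }
    let g : LinearMap.ker l →ₗ[ℚ] (Fin 4 → ℚ) := f.domRestrict (LinearMap.ker l)
    have hg : ∀ x : LinearMap.ker l, g x = ![N x 0 2, N x 1 2, N x 2 0, N x 2 1] := fun x => rfl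
    have h1 := g.finrank_range_add_finrank_ker
    have h2 : Module.finrank ℚ (LinearMap.range g) ≤ 2 := by
      refine isotropic p q r s hD _ ?_
      rintro x ⟨y, rfl⟩
      have := R0 y (LinearMap.mem_ker.1 y.2)
      rw [hg]
      simpa using this
    have h3 := l.finrank_range_add_finrank_ker
    have h4 : Module.finrank ℚ (Fin k → ℚ) = k := by simp
    have h5 : Module.finrank ℚ (LinearMap.range l) ≤ 1 := by
      refine (Submodule.finrank_le _).trans ?_
      simp
    rw [h4] at h3
    have h6 : 2 ≤ Module.finrank ℚ (LinearMap.ker g) := by omega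
    let x0 : LinearMap.ker l := ⟨X0, LinearMap.mem_ker.2 hX0⟩
    have h7 : ¬ LinearMap.ker g ≤ Submodule.span ℚ {x0} := by
      intro h8
      have h9 := Submodule.finrank_mono h8
      have h10 : Module.finrank ℚ (Submodule.span ℚ {x0}) ≤ 1 := finrank_span_le_card {x0} |>.trans (by simp)
      omega
    obtain ⟨x1, hx1, hx1n⟩ := SetLike.not_le_iff_exists.1 h7
    rw [LinearMap.mem_ker, hg] at hx1
    refine ⟨x1, LinearMap.mem_ker.1 x1.2, ?_, ?_, ?_, ?_, ?_⟩
    · intro σ hσ
      apply hx1n
      rw [Submodule.mem_span_singleton]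
      exact ⟨σ, Subtype.ext hσ.symm⟩
    · simpa using congrFun hx1 0
    · simpa using congrFun hx1 1
    · simpa using congrFun hx1 2
    · simpa using congrFun hx1 3
  set p' := N X1 0 0 with hp'
  set q' := N X1 0 1 with hq'
  set r' := N X1 1 0 with hr'
  set s' := N X1 1 1 with hs'
  have y22 := K22 X1 hX1
  have R1 : ∀ X, l X = 0 →
      p' * N X 1 2 * N X 2 1 - q' * N X 1 2 * N X 2 0 - r' * N X 0 2 * N X 2 1 + s' * N X 0 2 * N X 2 0 = 0 := by
    intro X hX
    have h1 := F2 X X1 hX hX1
    simp only [pol, y02, y12, y20, y21, y22, K22 X hX, ← hp', ← hq', ← hr', ← hs'] at h1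
    linear_combination -h1
  have hDst : ∀ σ τ : ℚ, (σ ≠ 0 ∨ τ ≠ 0) →
      (σ * p + τ * p') * (σ * s + τ * s') - (σ * q + τ * q') * (σ * r + τ * r') ≠ 0 := by
    intro σ τ hστ h0
    have hne : σ • X0 + τ • X1 ≠ 0 := by
      intro h1
      by_cases hτ : τ = 0
      · rw [hτ, zero_smul, add_zero] at h1
        rcases smul_eq_zero.1 h1 with h2 | h2
        · rcases hστ with h3 | h3
          · exact h3 h2
          · exact h3 hτ
        · exact hX0n h2
      · apply hX1n (-(σ / τ))
        have h2 : τ • X1 = -(σ • X0) := by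
          rw [eq_neg_iff_add_eq_zero, add_comm]
          exact h1
        calc X1 = τ⁻¹ • (τ • X1) := by rw [smul_smul, inv_mul_cancel₀ hτ, one_smul]
          _ = τ⁻¹ • (-(σ • X0)) := by rw [h2]
          _ = -(σ / τ) • X0 := by
            rw [smul_neg, smul_smul, neg_smul]
            congr 2
            ring
    have h1 := F1 (σ • X0 + τ • X1) (by rw [map_add, map_smul, map_smul, hX0, hX1]; simp)
    have h2 : pol (N (σ • X0 + τ • X1)) (N X') =
        ((σ * p + τ * p') * (σ * s + τ * s') - (σ * q + τ * q') * (σ * r + τ * r')) * N X' 2 2 := by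
      rw [map_add, map_smul, map_smul]
      simp only [pol, Matrix.add_apply, Matrix.smul_apply, smul_eq_mul, z02, z12, z20, z21, z22, y02, y12, y20,
        y21, y22, ← hp, ← hq, ← hr, ← hs, ← hp', ← hq', ← hr', ← hs']
      ring
    rw [h2, h0, zero_mul] at h1
    exact mul_ne_zero hκ (sumsq_ne hne) h1.symm
  -- every element has vanishing third column or third row
  have dich : ∀ Y, l Y = 0 → (N Y 0 2 = 0 ∧ N Y 1 2 = 0) ∨ (N Y 2 0 = 0 ∧ N Y 2 1 = 0) := by
    intro Y hY
    have e0 := R0 Y hY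
    have e1 := R1 Y hY
    generalize hb0 : N Y 0 2 = b0 at e0 e1 ⊢
    generalize hb1 : N Y 1 2 = b1 at e0 e1 ⊢
    generalize hc0 : N Y 2 0 = c0 at e0 e1 ⊢
    generalize hc1 : N Y 2 1 = c1 at e0 e1 ⊢
    by_contra hcon
    rw [not_or, not_and_or, not_and_or] at hcon
    obtain ⟨hb, hc⟩ := hcon
    obtain ⟨u0, hu0⟩ : ∃ u0, u0 = s * b0 - q * b1 := ⟨_, rfl⟩
    obtain ⟨u1, hu1⟩ : ∃ u1, u1 = -r * b0 + p * b1 := ⟨_, rfl⟩
    obtain ⟨v0, hv0⟩ : ∃ v0, v0 = s' * b0 - q' * b1 := ⟨_, rfl⟩
    obtain ⟨v1, hv1⟩ : ∃ v1, v1 = -r' * b0 + p' * b1 := ⟨_, rfl⟩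
    have f0 : c0 * u0 + c1 * u1 = 0 := by
      rw [hu0, hu1]
      linear_combination e0
    have f1 : c0 * v0 + c1 * v1 = 0 := by
      rw [hv0, hv1]
      linear_combination e1
    have hdep : u0 * v1 - u1 * v0 = 0 := by
      rcases hc with hc | hc
      · apply (mul_eq_zero.1 (show c0 * (u0 * v1 - u1 * v0) = 0 by linear_combination v1 * f0 - u1 * f1)).resolve_left hc
      · apply (mul_eq_zero.1 (show c1 * (u0 * v1 - u1 * v0) = 0 by linear_combination u0 * f1 - v0 * f0)).resolve_left hc
    have key : ∀ σ τ : ℚ, σ * u0 + τ * v0 = 0 → σ * u1 + τ * v1 = 0 → σ = 0 ∧ τ = 0 := by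
      intro σ τ g0 g1
      by_contra hne
      have h1 := hDst σ τ (by
        by_contra h2
        push Not at h2
        exact hne h2)
      rw [hu0, hv0] at g0
      rw [hu1, hv1] at g1
      rcases hb with hb | hb
      · apply h1
        apply (mul_eq_zero.1 (show b0 * ((σ * p + τ * p') * (σ * s + τ * s') -
          (σ * q + τ * q') * (σ * r + τ * r')) = 0 by
            linear_combination (σ * p + τ * p') * g0 + (σ * q + τ * q') * g1)).resolve_left hb
      · apply h1
        apply (mul_eq_zero.1 (show b1 * ((σ * p + τ * p') * (σ * s + τ * s') -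
          (σ * q + τ * q') * (σ * r + τ * r')) = 0 by
            linear_combination (σ * r + τ * r') * g0 + (σ * s + τ * s') * g1)).resolve_left hb
    have k1 := key v0 (-u0) (by ring) (by linear_combination -hdep)
    have k2 := key v1 (-u1) (by linear_combination hdep) (by ring)
    have hu0z : u0 = 0 := by linarith [k1.2]
    have hu1z : u1 = 0 := by linarith [k2.2]
    have := key 1 0 (by rw [hu0z]; ring) (by rw [hu1z]; ring)
    exact one_ne_zero this.1
  by_cases hB : ∀ Y, l Y = 0 → N Y 0 2 = 0 ∧ N Y 1 2 = 0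
  · obtain ⟨w, hw, hw0⟩ := exists_orth (fun i => N X' i 2)
    refine ⟨w, ![0, 0, 1], hw, ?_, ?_⟩
    · intro h0
      have := congrFun h0 2
      simp at this
    · intro X
      have h1 : l (X - l X • X') = 0 := by
        rw [map_sub, map_smul, hX']
        simp
      have h2 := hB _ h1
      have h3 := K22 _ h1
      rw [map_sub, map_smul] at h2 h3
      simp only [Matrix.sub_apply, Matrix.smul_apply, smul_eq_mul] at h2 h3
      obtain ⟨h4, h5⟩ := h2
      simp only [dotProduct, mulVec, Fin.sum_univ_three]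
      simp
      linear_combination w 0 * h4 + w 1 * h5 + w 2 * h3 + l X * hw0
  · have hC : ∀ Y, l Y = 0 → N Y 2 0 = 0 ∧ N Y 2 1 = 0 := by
      push Not at hB
      obtain ⟨Y1, hY1, hb⟩ := hB
      have hc1 : N Y1 2 0 = 0 ∧ N Y1 2 1 = 0 := by
        rcases dich Y1 hY1 with h | h
        · exact absurd h.2 (hb h.1)
        · exact h
      intro Y hY
      rcases dich Y hY with h | h
      · rcases dich (Y + Y1) (by rw [map_add, hY, hY1, add_zero]) with h2 | h2
        · rw [map_add] at h2
          simp only [Matrix.add_apply, h.1, h.2, zero_add] at h2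
          exact absurd h2.2 (hb h2.1)
        · rw [map_add] at h2
          simp only [Matrix.add_apply, hc1.1, hc1.2, add_zero] at h2
          exact h2
      · exact h
    obtain ⟨v, hv, hv0⟩ := exists_orth (fun j => N X' 2 j)
    refine ⟨![0, 0, 1], v, ?_, hv, ?_⟩
    · intro h0
      have := congrFun h0 2
      simp at this
    · intro X
      have h1 : l (X - l X • X') = 0 := by
        rw [map_sub, map_smul, hX']
        simp
      have h2 := hC _ h1
      have h3 := K22 _ h1
      rw [map_sub, map_smul] at h2 h3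
      simp only [Matrix.sub_apply, Matrix.smul_apply, smul_eq_mul] at h2 h3
      obtain ⟨h4, h5⟩ := h2
      simp only [dotProduct, mulVec, Fin.sum_univ_three]
      simp
      linear_combination v 0 * h4 + v 1 * h5 + v 2 * h3 + l X * hv0

theorem d3 : Pool.Agent.P8H33.QC.S_D3 := by
  intro k hk m c h
  by_cases hc : c = 0
  · refine singular_case m fun X => ?_
    rw [h X, hc]
    simp
  · set N : (Fin k → ℚ) →ₗ[ℚ] M3 := Fintype.linearCombination ℚ m with hN
    have hNX : ∀ X, N X = ∑ i, X i • m i := fun X => Fintype.linearCombination_apply ℚ m X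
    have hm : ∀ i, N (Pi.single i 1) = m i := by
      intro i
      rw [hN, Fintype.linearCombination_apply_single, one_smul]
    set l : (Fin k → ℚ) →ₗ[ℚ] ℚ := Fintype.linearCombination ℚ c with hl
    have hlX : ∀ X, l X = ∑ i, c i * X i := by
      intro X
      rw [hl, Fintype.linearCombination_apply]
      refine Finset.sum_congr rfl fun i _ => ?_
      rw [smul_eq_mul, mul_comm]
    have hdet : ∀ X, (N X).det = l X * ∑ i, X i ^ 2 := by
      intro X
      rw [hNX, hlX]
      exact h X
    obtain ⟨i, hi⟩ : ∃ i, c i ≠ 0 := by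
      by_contra hcon
      push Not at hcon
      exact hc (funext hcon)
    have hX' : l ((c i)⁻¹ • Pi.single i 1) = 1 := by
      rw [map_smul, hl, Fintype.linearCombination_apply_single, one_smul, smul_eq_mul, inv_mul_cancel₀ hi]
    -- a nonzero element of the kernel of `l`
    obtain ⟨X0, hX0, hX0n⟩ : ∃ X0, l X0 = 0 ∧ X0 ≠ 0 := by
      have h3 := l.finrank_range_add_finrank_ker
      have h4 : Module.finrank ℚ (Fin k → ℚ) = k := by simp
      have h5 : Module.finrank ℚ (LinearMap.range l) ≤ 1 := by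
        refine (Submodule.finrank_le _).trans ?_
        simp
      rw [h4] at h3
      have h6 : LinearMap.ker l ≠ ⊥ := by
        intro h7
        rw [h7, finrank_bot] at h3
        omega
      obtain ⟨x, hx, hx0⟩ := Submodule.exists_mem_ne_zero_of_ne_bot h6
      exact ⟨x, LinearMap.mem_ker.1 hx, hx0⟩
    have hd0 : (N X0).det = 0 := by rw [hdet, hX0, zero_mul]
    obtain ⟨v0, hv0, hv0'⟩ := exists_mulVec_eq_zero_iff.2 hd0
    obtain ⟨w0, hw0, hw0'⟩ := exists_vecMul_eq_zero_iff.2 hd0
    obtain ⟨P, hP, hP2⟩ := exists_col v0 hv0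
    obtain ⟨R, hR, hR2⟩ := exists_col w0 hw0
    let N' : (Fin k → ℚ) →ₗ[ℚ] M3 :=
      { toFun := fun X => Rᵀ * N X * P
        map_add' := by
          intro X Y
          rw [map_add, Matrix.mul_add, Matrix.add_mul]
        map_smul' := by
          intro t X
          rw [map_smul, Matrix.mul_smul, Matrix.smul_mul]
          rfl }
    have hN' : ∀ X, N' X = Rᵀ * N X * P := fun X => rfl
    have hcol : ∀ a, (N X0 * P) a 2 = 0 := by
      intro a
      have h1 := congrFun hv0' a
      simp only [mulVec, dotProduct, Pi.zero_apply] at h1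
      rw [Matrix.mul_apply, ← h1]
      exact Finset.sum_congr rfl fun j _ => by rw [hP2]
    have hrow : ∀ b, (Rᵀ * N X0) 2 b = 0 := by
      intro b
      have h1 := congrFun hw0' b
      simp only [vecMul, dotProduct, Pi.zero_apply] at h1
      rw [Matrix.mul_apply, ← h1]
      exact Finset.sum_congr rfl fun j _ => by rw [transpose_apply, hR2]
    have hz1 : ∀ a, N' X0 a 2 = 0 := by
      intro a
      rw [hN', Matrix.mul_assoc, Matrix.mul_apply]
      exact Finset.sum_eq_zero fun j _ => by rw [hcol, mul_zero]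
    have hz2 : ∀ b, N' X0 2 b = 0 := by
      intro b
      rw [hN', Matrix.mul_apply]
      exact Finset.sum_eq_zero fun j _ => by rw [hrow, zero_mul]
    obtain ⟨w, v, hw, hv, hwv⟩ := core hk N' l (R.det * P.det) (mul_ne_zero hR hP) (by
      intro X
      rw [hN', det_mul, det_mul, det_transpose, hdet]
      ring) _ X0 hX' hX0 hX0n (hz1 0) (hz1 1) (hz2 0) (hz2 1) (hz1 2)
    refine ⟨w ᵥ* Rᵀ, P *ᵥ v, ?_, ?_, ?_⟩
    · intro h0
      apply hw
      have hRT : Rᵀ.det ≠ 0 := by rwa [det_transpose]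
      by_contra hne
      exact hRT (exists_vecMul_eq_zero_iff.1 ⟨w, hne, h0⟩)
    · intro h0
      apply hv
      by_contra hne
      exact hP (exists_mulVec_eq_zero_iff.1 ⟨v, hne, h0⟩)
    · intro j
      have h1 := hwv (Pi.single j 1)
      rw [hN', hm] at h1
      rw [← h1, ← Matrix.dotProduct_mulVec, Matrix.mulVec_mulVec, Matrix.mulVec_mulVec, Matrix.mul_assoc]

end main

end Pool.Agent.P8H37.QC
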